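import Mathlib
import Pool.Agent.Q102.ErdosGallai

/-!
MP_440a65_co, Q1: if every edge of a finite simple graph has positive imbalance, then the multiset
of edge imbalances is graphic.
-/

namespace Pool.Agent.Results.MP_440a65_co.ImbalanceGraphic

open Finset Classical Pool.Agent.Q102.EG

variable {V : Type*} [Fintype V]

/-- imbalance of an edge `uv`: `|deg u - deg v|` -/
noncomputable def imb (G : SimpleGraph V) : Sym2 V → ℕ :=
  Sym2.lift ⟨fun u v => ((G.degree u : ℤ) - G.degree v).natAbs, fun u v => by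
    show ((G.degree u : ℤ) - G.degree v).natAbs = ((G.degree v : ℤ) - G.degree u).natAbs
    omega⟩

/-- the multiset of edge imbalances -/
noncomputable def imbMultiset (G : SimpleGraph V) : Multiset ℕ := G.edgeFinset.val.map (imb G)

/-- a multiset is graphic if it is the degree multiset of a simple graph -/
def Graphic (s : Multiset ℕ) : Prop :=
  ∃ (n : ℕ) (H : SimpleGraph (Fin n)), s = Finset.univ.val.map (fun v => H.degree v)

theorem imb_mk (G : SimpleGraph V) (u v : V) :
    imb G s(u, v) = ((G.degree u : ℤ) - G.degree v).natAbs := rfl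

/-- the numerical inequality -/
theorem numeric {q k r W : ℤ} (hq : 0 ≤ q) (hqk : q ≤ k - 1) (hr : 0 ≤ r) (hW0 : 0 ≤ W)
    (hW : W ≤ r + 1 + q) : 0 ≤ 2 * q * (k - 1) + 2 * W * r - W * (W - 1) := by
  by_cases h : W - 1 ≤ 2 * r
  · have h1 : 0 ≤ W * (2 * r - (W - 1)) := mul_nonneg hW0 (by linarith)
    have h2 : 0 ≤ q * (k - 1) := mul_nonneg hq (by linarith)
    nlinarith
  · push Not at h
    have h1 : W * (W - 1 - 2 * r) ≤ (r + 1 + q) * (q - r) := by
      apply mul_le_mul hW (by linarith) (by linarith) (by linarith)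
    have hq1 : 1 ≤ q := by linarith
    have h2 : (r + 1 + q) * (q - r) ≤ 2 * q * q := by nlinarith
    have h3 : q * q ≤ q * (k - 1) := mul_le_mul_of_nonneg_left hqk hq
    nlinarith

theorem double_count (G : SimpleGraph V) (x : V) (W : Finset V) (hW : ∀ w ∈ W, G.Adj x w) :
    2 * ∑ w ∈ W, (G.degree w - 1) ≤
      2 * #{e ∈ G.edgeFinset | x ∉ e ∧ ∃ w ∈ W, w ∈ e} + #W * (#W - 1) := by
  -- pairs
  set P : Finset (V × V) := W.biUnion (fun w => ((G.neighborFinset w).erase x).map
    ⟨fun y => (w, y), fun a b h => by simpa using h⟩) with hP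
  have memP : ∀ w y, (w, y) ∈ P ↔ w ∈ W ∧ G.Adj w y ∧ y ≠ x := by
    intro w y
    rw [hP, Finset.mem_biUnion]
    constructor
    · rintro ⟨w', hw', h⟩
      rw [Finset.mem_map] at h
      obtain ⟨y', hy', h⟩ := h
      simp only [Function.Embedding.coeFn_mk, Prod.mk.injEq] at h
      obtain ⟨rfl, rfl⟩ := h
      rw [Finset.mem_erase, SimpleGraph.mem_neighborFinset] at hy'
      exact ⟨hw', hy'.2, hy'.1⟩
    · rintro ⟨h1, h2, h3⟩
      refine ⟨w, h1, Finset.mem_map.mpr ⟨y, ?_, rfl⟩⟩
      rw [Finset.mem_erase, SimpleGraph.mem_neighborFinset]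
      exact ⟨h3, h2⟩
  have cardP : #P = ∑ w ∈ W, (G.degree w - 1) := by
    rw [hP, Finset.card_biUnion]
    · apply Finset.sum_congr rfl
      intro w hw
      rw [Finset.card_map, Finset.card_erase_of_mem, SimpleGraph.card_neighborFinset_eq_degree]
      rw [SimpleGraph.mem_neighborFinset]; exact (hW w hw).symm
    · intro w _ w' _ hne
      rw [Function.onFun, Finset.disjoint_left]
      intro p hp hp'
      rw [Finset.mem_map] at hp hp'
      obtain ⟨y, -, rfl⟩ := hp
      obtain ⟨y', -, h⟩ := hp'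
      simp only [Function.Embedding.coeFn_mk, Prod.mk.injEq] at h
      exact hne h.1.symm
  set Q := {e ∈ G.edgeFinset | x ∉ e ∧ ∃ w ∈ W, w ∈ e} with hQ
  -- split
  set Pin := {p ∈ P | p.2 ∈ W} with hPin
  set Pout := {p ∈ P | p.2 ∉ W} with hPout
  have hsplit : #P = #Pin + #Pout := by
    rw [hPin, hPout, Finset.card_filter_add_card_filter_not]
  have hIn : #Pin ≤ #W * (#W - 1) := by
    have hsub : Pin ⊆ W.offDiag := by
      rintro ⟨w, y⟩ h
      rw [hPin, Finset.mem_filter, memP] at h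
      rw [Finset.mem_offDiag]
      exact ⟨h.1.1, h.2, h.1.2.1.ne⟩
    have := Finset.card_le_card hsub
    rw [Finset.offDiag_card] at this
    rw [Nat.mul_sub, mul_one]
    exact this
  have hIn2 : #Pin ≤ 2 * #(Pin.image (fun p => s(p.1, p.2))) := by
    apply Finset.card_le_mul_card_image
    intro e _
    induction e using Sym2.ind with
    | _ a b =>
      have hsub : {p ∈ Pin | s(p.1, p.2) = s(a, b)} ⊆ {(a, b), (b, a)} := by
        rintro ⟨w, y⟩ h
        rw [Finset.mem_filter] at h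
        rcases Sym2.eq_iff.mp h.2 with ⟨h1, h2⟩ | ⟨h1, h2⟩
        · simp only at h1 h2; subst h1; subst h2; simp
        · simp only at h1 h2; subst h1; subst h2; simp
      exact (Finset.card_le_card hsub).trans Finset.card_le_two
  have hOut : #(Pout.image (fun p => s(p.1, p.2))) = #Pout := by
    apply Finset.card_image_of_injOn
    rintro ⟨w, y⟩ h ⟨w', y'⟩ h' he
    rw [Finset.mem_coe, hPout, Finset.mem_filter, memP] at h h'
    rcases Sym2.eq_iff.mp he with ⟨h1, h2⟩ | ⟨h1, h2⟩
    · simp only at h1 h2; rw [h1, h2]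
    · simp only at h1 h2
      exact absurd (h1 ▸ h.1.1) h'.2
  have hsubQ : Pin.image (fun p => s(p.1, p.2)) ∪ Pout.image (fun p => s(p.1, p.2)) ⊆ Q := by
    intro e he
    have : ∃ w y, (w, y) ∈ P ∧ s(w, y) = e := by
      rcases Finset.mem_union.mp he with h | h
      · obtain ⟨⟨w, y⟩, hp, rfl⟩ := Finset.mem_image.mp h
        exact ⟨w, y, (Finset.mem_filter.mp hp).1, rfl⟩
      · obtain ⟨⟨w, y⟩, hp, rfl⟩ := Finset.mem_image.mp h
        exact ⟨w, y, (Finset.mem_filter.mp hp).1, rfl⟩
    obtain ⟨w, y, hp, rfl⟩ := this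
    rw [memP] at hp
    rw [hQ, Finset.mem_filter, SimpleGraph.mem_edgeFinset, SimpleGraph.mem_edgeSet]
    refine ⟨hp.2.1, ?_, w, hp.1, by simp⟩
    rw [Sym2.mem_iff]
    rintro (h | h)
    · exact (hW w hp.1).ne h
    · exact hp.2.2 h.symm
  have hdisj : Disjoint (Pin.image (fun p => s(p.1, p.2))) (Pout.image (fun p => s(p.1, p.2))) := by
    rw [Finset.disjoint_left]
    intro e h h'
    obtain ⟨⟨w, y⟩, hp, rfl⟩ := Finset.mem_image.mp h
    obtain ⟨⟨w', y'⟩, hp', he⟩ := Finset.mem_image.mp h'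
    rw [hPin, Finset.mem_filter, memP] at hp
    rw [hPout, Finset.mem_filter, memP] at hp'
    rcases Sym2.eq_iff.mp he with ⟨h1, h2⟩ | ⟨h1, h2⟩
    · simp only at h1 h2; rw [h2] at hp'; exact hp'.2 hp.2
    · simp only at h1 h2; rw [h2] at hp'; exact hp'.2 hp.1.1
  have h5 := Finset.card_le_card hsubQ
  rw [Finset.card_union_of_disjoint hdisj, hOut] at h5
  rw [← cardP]
  omega

/-- the Erdős–Gallai inequality for an arbitrary nonempty set `F` of edges -/
theorem key (G : SimpleGraph V) (hG : ∀ u v, G.Adj u v → G.degree u ≠ G.degree v)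
    (F : Finset (Sym2 V)) (hF : F ⊆ G.edgeFinset) (hne : F.Nonempty) :
    ∑ e ∈ F, imb G e ≤ #F * (#F - 1) + ∑ e ∈ G.edgeFinset \ F, min (imb G e) #F := by
  obtain ⟨e1, he1, hmax⟩ := Finset.exists_max_image F (imb G) hne
  set k := #F with hk
  have hk1 : 1 ≤ k := Finset.card_pos.mpr hne
  have hle : ∑ e ∈ F, imb G e ≤ k * imb G e1 := by
    have := Finset.sum_le_card_nsmul F (imb G) (imb G e1) hmax
    rwa [smul_eq_mul] at this
  by_cases hcase : imb G e1 + 1 ≤ k
  · have : k * imb G e1 ≤ k * (k - 1) := Nat.mul_le_mul_left _ (by omega)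
    omega
  push Not at hcase
  -- top endpoint
  obtain ⟨x, v, hxv, hdeg, hxe⟩ : ∃ x v, G.Adj x v ∧ G.degree x = G.degree v + imb G e1 ∧
      e1 = s(x, v) := by
    induction e1 using Sym2.ind with
    | _ a b =>
      have hab : G.Adj a b := by
        have := hF he1
        rwa [SimpleGraph.mem_edgeFinset, SimpleGraph.mem_edgeSet] at this
      rw [imb_mk]
      rcases le_total (G.degree a) (G.degree b) with h | h
      · exact ⟨b, a, hab.symm, by omega, Sym2.eq_swap⟩
      · exact ⟨a, b, hab, by omega, rfl⟩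
  have hv1 : 1 ≤ G.degree v := by
    have : 0 < G.degree v := by
      rw [G.degree_pos_iff_exists_adj]
      exact ⟨x, hxv.symm⟩
    exact this
  set D := G.degree x with hD
  have hDk : k + 1 ≤ D := by omega
  -- neighbours of `x` along edges outside `F`
  set NR := {w ∈ G.neighborFinset x | s(x, w) ∉ F} with hNR
  set Fx := {w ∈ G.neighborFinset x | s(x, w) ∈ F} with hFx
  have hcardD : #Fx + #NR = D := by
    rw [hFx, hNR, Finset.card_filter_add_card_filter_not,
      SimpleGraph.card_neighborFinset_eq_degree]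
  have hFx1 : 1 ≤ #Fx := by
    apply Finset.card_pos.mpr
    refine ⟨v, ?_⟩
    rw [hFx, Finset.mem_filter, SimpleGraph.mem_neighborFinset]
    exact ⟨hxv, hxe ▸ he1⟩
  have hinj : Set.InjOn (fun w => s(x, w)) (↑(Finset.univ : Finset V) : Set V) := by
    intro a _ b _ h
    have h' : s(x, a) = s(x, b) := h
    rcases Sym2.eq_iff.mp h' with ⟨-, h⟩ | ⟨h1, h2⟩
    · exact h
    · exact h2.trans h1
  -- edges of `F` not at `x`
  set Fo := {e ∈ F | x ∉ e} with hFo
  have hFcard : #Fx + #Fo = k := by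
    have h1 : #{e ∈ F | x ∈ e} = #Fx := by
      have : {e ∈ F | x ∈ e} = Fx.image (fun w => s(x, w)) := by
        ext e
        rw [Finset.mem_filter, Finset.mem_image]
        constructor
        · rintro ⟨he, hx⟩
          obtain ⟨w, rfl⟩ := Sym2.mem_iff_exists.mp hx
          refine ⟨w, ?_, rfl⟩
          rw [hFx, Finset.mem_filter, SimpleGraph.mem_neighborFinset]
          have := hF he
          rw [SimpleGraph.mem_edgeFinset, SimpleGraph.mem_edgeSet] at this
          exact ⟨this, he⟩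
        · rintro ⟨w, hw, rfl⟩
          rw [hFx, Finset.mem_filter] at hw
          exact ⟨hw.2, by simp⟩
      rw [this, Finset.card_image_of_injOn (hinj.mono (by simp))]
    rw [← h1, hFo, Finset.card_filter_add_card_filter_not, hk]
  -- the light neighbours
  set W := {w ∈ NR | imb G s(x, w) < k} with hWdef
  have hWadj : ∀ w ∈ W, G.Adj x w := by
    intro w hw
    rw [hWdef, Finset.mem_filter, hNR, Finset.mem_filter, SimpleGraph.mem_neighborFinset] at hw
    exact hw.1.1
  have hdc := double_count G x W hWadj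
  set Q := {e ∈ G.edgeFinset | x ∉ e ∧ ∃ w ∈ W, w ∈ e} with hQ
  have hWle : #W ≤ #NR := Finset.card_filter_le _ _
  -- lower bound for the right-hand side
  have hRHS : ∑ w ∈ NR, min (imb G s(x, w)) k + #(Q \ F) ≤
      ∑ e ∈ G.edgeFinset \ F, min (imb G e) k := by
    have hsub : NR.image (fun w => s(x, w)) ∪ (Q \ F) ⊆ G.edgeFinset \ F := by
      intro e he
      rw [Finset.mem_sdiff]
      rcases Finset.mem_union.mp he with h | h
      · obtain ⟨w, hw, rfl⟩ := Finset.mem_image.mp h
        rw [hNR, Finset.mem_filter, SimpleGraph.mem_neighborFinset] at hw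
        exact ⟨by rw [SimpleGraph.mem_edgeFinset, SimpleGraph.mem_edgeSet]; exact hw.1, hw.2⟩
      · rw [Finset.mem_sdiff, hQ, Finset.mem_filter] at h
        exact ⟨h.1.1, h.2⟩
    have hdisj : Disjoint (NR.image (fun w => s(x, w))) (Q \ F) := by
      rw [Finset.disjoint_left]
      intro e h h'
      obtain ⟨w, hw, rfl⟩ := Finset.mem_image.mp h
      rw [Finset.mem_sdiff, hQ, Finset.mem_filter] at h'
      exact h'.1.2.1 (by simp)
    refine le_trans ?_ (Finset.sum_le_sum_of_subset hsub)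
    rw [Finset.sum_union hdisj, Finset.sum_image (fun a _ b _ h => hinj (by simp) (by simp) h)]
    apply Nat.add_le_add_left
    rw [Finset.card_eq_sum_ones]
    apply Finset.sum_le_sum
    intro e he
    rw [Finset.mem_sdiff, hQ, Finset.mem_filter] at he
    have hE := he.1.1
    induction e using Sym2.ind with
    | _ a b =>
      rw [SimpleGraph.mem_edgeFinset, SimpleGraph.mem_edgeSet] at hE
      have := hG a b hE
      rw [imb_mk, le_min_iff]
      exact ⟨by omega, hk1⟩
  have hQF : #Q ≤ #(Q \ F) + #Fo := by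
    have h1 : Q ∩ F ⊆ Fo := by
      intro e he
      rw [Finset.mem_inter, hQ, Finset.mem_filter] at he
      rw [hFo, Finset.mem_filter]
      exact ⟨he.2, he.1.2.1⟩
    have h2 := Finset.card_le_card h1
    have h3 := Finset.card_sdiff_add_card_inter Q F
    omega
  -- contributions of the edges at `x`
  have hS1 : k * #NR + ∑ w ∈ W, imb G s(x, w) ≤ ∑ w ∈ NR, min (imb G s(x, w)) k + k * #W := by
    have e1 : ∑ w ∈ NR, min (imb G s(x, w)) k =
        ∑ w ∈ W, min (imb G s(x, w)) k + ∑ w ∈ {w ∈ NR | ¬ imb G s(x, w) < k},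
          min (imb G s(x, w)) k := (Finset.sum_filter_add_sum_filter_not _ _ _).symm
    have e2 : ∑ w ∈ W, min (imb G s(x, w)) k = ∑ w ∈ W, imb G s(x, w) := by
      apply Finset.sum_congr rfl
      intro w hw
      rw [hWdef, Finset.mem_filter] at hw
      exact min_eq_left hw.2.le
    have e3 : ∑ w ∈ {w ∈ NR | ¬ imb G s(x, w) < k}, min (imb G s(x, w)) k =
        #{w ∈ NR | ¬ imb G s(x, w) < k} * k := by
      rw [← smul_eq_mul, ← Finset.sum_const]
      apply Finset.sum_congr rfl
      intro w hw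
      rw [Finset.mem_filter] at hw
      exact min_eq_right (not_lt.mp hw.2)
    have e4 : #W + #{w ∈ NR | ¬ imb G s(x, w) < k} = #NR := by
      rw [hWdef, Finset.card_filter_add_card_filter_not]
    rw [e1, e2, e3, ← e4]
    nlinarith
  have hS2 : #W * (D - 1) ≤ ∑ w ∈ W, imb G s(x, w) + ∑ w ∈ W, (G.degree w - 1) := by
    rw [← Finset.sum_add_distrib, ← smul_eq_mul, ← Finset.sum_const]
    apply Finset.sum_le_sum
    intro w hw
    have hw1 : 1 ≤ G.degree w := by
      have : 0 < G.degree w := by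
        rw [G.degree_pos_iff_exists_adj]
        exact ⟨x, (hWadj w hw).symm⟩
      exact this
    rw [imb_mk]
    omega
  -- conclusion
  have hnum := numeric (q := #Fo) (k := k) (r := (D : ℤ) - 1 - k) (W := #W) (by positivity)
    (by omega) (by omega) (by positivity) (by omega)
  have hle2 : k * imb G e1 ≤ k * (D - 1) := Nat.mul_le_mul_left _ (by omega)
  have hD1 : ((D - 1 : ℕ) : ℤ) = D - 1 := by push_cast [Nat.cast_sub (show 1 ≤ D by omega)]; ring
  have hk1' : ((k - 1 : ℕ) : ℤ) = k - 1 := by push_cast [Nat.cast_sub hk1]; ring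
  have hWW : ((#W * (#W - 1) : ℕ) : ℤ) = #W * (#W - 1) := by
    rcases Nat.eq_zero_or_pos (#W) with h | h
    · rw [h]; simp
    · push_cast [Nat.cast_sub (show 1 ≤ #W by omega)]; ring
  have z1 : ((#W : ℤ)) * (D - 1) ≤ (∑ w ∈ W, imb G s(x, w) : ℕ) +
      (∑ w ∈ W, (G.degree w - 1) : ℕ) := by
    rw [← hD1]; exact_mod_cast hS2
  have z2 : (k : ℤ) * #NR + (∑ w ∈ W, imb G s(x, w) : ℕ) ≤
      (∑ w ∈ NR, min (imb G s(x, w)) k : ℕ) + k * #W := by exact_mod_cast hS1
  have z3 : ((#Q : ℕ) : ℤ) ≤ (#(Q \ F) : ℕ) + #Fo := by exact_mod_cast hQF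
  have z4 : ((∑ w ∈ NR, min (imb G s(x, w)) k : ℕ) : ℤ) + (#(Q \ F) : ℕ) ≤
      (∑ e ∈ G.edgeFinset \ F, min (imb G e) k : ℕ) := by exact_mod_cast hRHS
  have z5 : 2 * ((∑ w ∈ W, (G.degree w - 1) : ℕ) : ℤ) ≤ 2 * (#Q : ℕ) + #W * (#W - 1) := by
    rw [← hWW]; exact_mod_cast hdc
  have z6 : ((∑ e ∈ F, imb G e : ℕ) : ℤ) ≤ k * (D - 1) := by
    rw [← hD1]; exact_mod_cast hle.trans hle2
  have z7 : (#Fx : ℤ) + #Fo = k := by exact_mod_cast hFcard
  have z8 : (#Fx : ℤ) + #NR = D := by exact_mod_cast hcardD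
  have goal : ((∑ e ∈ F, imb G e : ℕ) : ℤ) ≤
      (k : ℤ) * ((k - 1 : ℕ) : ℤ) + (∑ e ∈ G.edgeFinset \ F, min (imb G e) k : ℕ) := by
    rw [hk1']
    have hNRe : (#NR : ℤ) = D - k + #Fo := by linarith
    rw [hNRe] at z2
    nlinarith
  exact_mod_cast goal

theorem sum_imb_even (G : SimpleGraph V) : Even (∑ e ∈ G.edgeFinset, imb G e) := by
  -- `∑ (deg u + deg v)` over the edges is `∑ deg^2`, which has the parity of `∑ deg`
  have h1 : ∑ e ∈ G.edgeFinset, (∑ v ∈ {v | v ∈ e}, G.degree v) = ∑ v, G.degree v * G.degree v := by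
    rw [Finset.sum_comm' (t' := Finset.univ) (s' := fun v => {e ∈ G.edgeFinset | v ∈ e})]
    · apply Finset.sum_congr rfl
      intro v _
      rw [Finset.sum_const, smul_eq_mul]
      congr 1
      rw [← SimpleGraph.card_incidenceFinset_eq_degree, SimpleGraph.incidenceFinset_eq_filter]
    · intro e v
      simp
  have h2 : ∀ e ∈ G.edgeFinset, imb G e ≡ ∑ v ∈ {v | v ∈ e}, G.degree v [MOD 2] := by
    intro e he
    induction e using Sym2.ind with
    | _ a b =>
      rw [SimpleGraph.mem_edgeFinset, SimpleGraph.mem_edgeSet] at he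
      have : ({v | v ∈ s(a, b)} : Finset V) = {a, b} := by
        ext v; simp [Sym2.mem_iff]
      rw [this, Finset.sum_pair he.ne, imb_mk]
      unfold Nat.ModEq
      omega
  have h3 : ((∑ e ∈ G.edgeFinset, imb G e : ℕ) : ZMod 2) = ((∑ v, G.degree v * G.degree v : ℕ) :
      ZMod 2) := by
    rw [← h1, Nat.cast_sum, Nat.cast_sum]
    apply Finset.sum_congr rfl
    intro e he
    exact (ZMod.natCast_eq_natCast_iff _ _ 2).mpr (h2 e he)
  have h4 : ((∑ v, G.degree v * G.degree v : ℕ) : ZMod 2) = ((∑ v, G.degree v : ℕ) : ZMod 2) := by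
    rw [Nat.cast_sum, Nat.cast_sum]
    apply Finset.sum_congr rfl
    intro v _
    rw [Nat.cast_mul]
    have : ∀ x : ZMod 2, x * x = x := by decide
    exact this _
  have h5 : ((∑ v, G.degree v : ℕ) : ZMod 2) = 0 := by
    rw [G.sum_degrees_eq_twice_card_edges]
    exact (ZMod.natCast_eq_zero_iff_even).mpr ⟨_, two_mul _⟩
  exact (ZMod.natCast_eq_zero_iff_even).mp (h3.trans (h4.trans h5))

theorem result (G : SimpleGraph V) (hG : ∀ u v, G.Adj u v → G.degree u ≠ G.degree v) :
    Graphic (imbMultiset G) := by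
  obtain ⟨H, hH⟩ := erdos_gallai_family (ι := {e // e ∈ G.edgeFinset}) (fun e => imb G e.1) (by
    have : ∑ e : {e // e ∈ G.edgeFinset}, imb G e.1 = ∑ e ∈ G.edgeFinset, imb G e :=
      Finset.sum_coe_sort G.edgeFinset (imb G)
    rw [this]
    exact sum_imb_even G) (by
    intro F hF
    have h1 := key G hG (F.map (Function.Embedding.subtype _)) (by
      intro e he
      rw [Finset.mem_map] at he
      obtain ⟨e', -, rfl⟩ := he
      exact e'.2) (by simpa using hF)
    rw [Finset.sum_map, Finset.card_map] at h1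
    have hc : G.edgeFinset \ F.map (Function.Embedding.subtype _) =
        Fᶜ.map (Function.Embedding.subtype _) := by
      ext e
      rw [Finset.mem_sdiff, Finset.mem_map, Finset.mem_map]
      constructor
      · rintro ⟨h, h'⟩
        refine ⟨⟨e, h⟩, ?_, rfl⟩
        rw [Finset.mem_compl]
        intro hmem
        exact h' ⟨⟨e, h⟩, hmem, rfl⟩
      · rintro ⟨e', he', rfl⟩
        refine ⟨e'.2, ?_⟩
        rintro ⟨e'', he'', h⟩
        rw [Finset.mem_compl] at he'
        have : e'' = e' := Subtype.ext h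
        exact he' (this ▸ he'')
    rw [hc, Finset.sum_map] at h1
    exact h1)
  refine ⟨_, H, ?_⟩
  rw [hH]
  unfold imbMultiset
  rw [Finset.univ_eq_attach, Finset.attach_val]
  conv_lhs => rw [← Multiset.attach_map_val G.edgeFinset.val]
  rw [Multiset.map_map]
  rfl

end Pool.Agent.Results.MP_440a65_co.ImbalanceGraphic
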